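import Mathlib

set_option autoImplicit false

namespace Pool.Agent.H.MP_0eb56c_an

open Filter Topology Set MeasureTheory MeasurableSpace

lemma tay (n : ℕ) : ∃ C, 0 ≤ C ∧ ∀ x y : ℝ,
    |(x + y) ^ (n + 2) - x ^ (n + 2) - (n + 2) * x ^ (n + 1) * y| ≤ C * y ^ 2 * (|x| + |y|) ^ n := by
  induction n with
  | zero => exact ⟨1, zero_le_one, fun x y => by
      rw [show (x + y) ^ (0 + 2) - x ^ (0 + 2) - ((0 : ℕ) + 2) * x ^ (0 + 1) * y = y ^ 2 by
        push_cast; ring]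
      simp⟩
  | succ n ih =>
    obtain ⟨C, C0, h⟩ := ih
    refine ⟨C + (n + 2), by positivity, fun x y => ?_⟩
    rw [show (x + y) ^ (n + 1 + 2) - x ^ (n + 1 + 2) - ((n + 1 : ℕ) + 2) * x ^ (n + 1 + 1) * y =
      (x + y) * ((x + y) ^ (n + 2) - x ^ (n + 2) - (n + 2) * x ^ (n + 1) * y) +
        (n + 2) * y ^ 2 * x ^ (n + 1) by push_cast; ring]
    refine (abs_add_le _ _).trans ?_
    rw [abs_mul, abs_mul, abs_pow, abs_of_nonneg (show (0 : ℝ) ≤ (n + 2) * y ^ 2 by positivity)]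
    have h1 := mul_le_mul (abs_add_le x y) (h x y) (abs_nonneg _) (by positivity)
    have h2 := mul_le_mul_of_nonneg_left (pow_le_pow_left₀ (abs_nonneg x)
      (le_add_of_nonneg_right (abs_nonneg y)) (n + 1)) (show (0 : ℝ) ≤ (n + 2) * y ^ 2 by positivity)
    rw [pow_succ (|x| + |y|)] at h2 ⊢
    linarith

lemma pt (j : ℕ) : ∃ c : ℝ, 0 < c ∧ ∀ x g h A B : ℝ, |h| ≤ 1 → 0 < A → 0 < B →
    (x + c * h * g) ^ (2 * j + 2) ≤ x ^ (2 * j + 2) + (2 * j + 2) * c * (x ^ (2 * j + 1) * g * h) +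
      B * (A + B) ^ j / 2 * ((B ^ (j + 1))⁻¹ * g ^ (2 * j + 2) +
        ((A + B) ^ (j + 1))⁻¹ * x ^ (2 * j + 2)) := by
  obtain ⟨C, C0, hC⟩ := tay (2 * j)
  have p : 0 < 2 * (C * 4 ^ j) + 1 := by positivity
  refine ⟨(2 * (C * 4 ^ j) + 1)⁻¹, inv_pos.2 p, fun x g h A B hh A0 B0 => ?_⟩
  have c1 : (2 * (C * 4 ^ j) + 1)⁻¹ ≤ 1 := inv_le_one_of_one_le₀ (by
    linarith [show 0 ≤ C * 4 ^ j by positivity])
  have c2 : C * 4 ^ j * (2 * (C * 4 ^ j) + 1)⁻¹ ≤ 1 / 2 := by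
    rw [← div_eq_mul_inv, div_le_iff₀ p]
    linarith
  have c0 := inv_pos.2 p
  generalize (2 * (C * 4 ^ j) + 1)⁻¹ = c at c0 c1 c2
  set m := max (g ^ 2 / B) (x ^ 2 / (A + B))
  have m0 : 0 ≤ m := le_max_of_le_left (by positivity)
  have m1 : g ^ 2 ≤ m * B := (div_le_iff₀ B0).1 (le_max_left _ _)
  have m2 : x ^ 2 ≤ m * (A + B) := (div_le_iff₀ (by positivity)).1 (le_max_right _ _)
  have m3 : m ^ (j + 1) ≤ (B ^ (j + 1))⁻¹ * g ^ (2 * j + 2) +
      ((A + B) ^ (j + 1))⁻¹ * x ^ (2 * j + 2) := by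
    rw [show 2 * j + 2 = 2 * (j + 1) by ring, pow_mul, pow_mul, inv_mul_eq_div, inv_mul_eq_div,
      ← div_pow, ← div_pow]
    rcases max_choice (g ^ 2 / B) (x ^ 2 / (A + B)) with e | e <;> rw [show m = _ from e]
    · exact le_add_of_nonneg_right (by positivity)
    · exact le_add_of_nonneg_left (by positivity)
  have h2 : h ^ 2 ≤ 1 := (sq_le_one_iff_abs_le_one h).2 hh
  have y1 : (c * h * g) ^ 2 ≤ c * (m * B) := by
    rw [mul_pow, mul_pow]
    exact mul_le_mul ((mul_le_of_le_one_right (sq_nonneg _) h2).trans (by nlinarith)) m1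
      (sq_nonneg _) c0.le
  have y2 : (|x| + |c * h * g|) ^ (2 * j) ≤ (4 * (A + B) * m) ^ j := by
    rw [pow_mul]
    refine pow_le_pow_left₀ (sq_nonneg _) ?_ j
    nlinarith [sq_nonneg (|x| - |c * h * g|), sq_abs x, sq_abs (c * h * g), mul_nonneg m0 A0.le,
      mul_le_of_le_one_left (mul_nonneg m0 B0.le) c1]
  have y3 := (le_abs_self _).trans ((hC x (c * h * g)).trans (mul_le_mul
    (mul_le_mul_of_nonneg_left y1 C0) y2 (by positivity) (by positivity)))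
  have y4 : C * (c * (m * B)) * (4 * (A + B) * m) ^ j ≤ B * (A + B) ^ j / 2 * m ^ (j + 1) := by
    rw [show C * (c * (m * B)) * (4 * (A + B) * m) ^ j =
      C * 4 ^ j * c * (B * (A + B) ^ j * m ^ (j + 1)) by rw [mul_pow, mul_pow]; ring]
    exact (mul_le_mul_of_nonneg_right c2 (by positivity)).trans_eq (by ring)
  have y5 := mul_le_mul_of_nonneg_left m3 (show 0 ≤ B * (A + B) ^ j / 2 by positivity)
  push_cast at y3
  linarith

variable {α : Type} {m m0 : MeasurableSpace α} {μ : Measure α} [IsFiniteMeasure μ]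

def BM (m : MeasurableSpace α) : Subalgebra ℝ (α → ℝ) where
  carrier := {f | Measurable[m] f ∧ ∃ C, ∀ x, |f x| ≤ C}
  mul_mem' := fun ⟨h1, C, h2⟩ ⟨k1, D, k2⟩ => ⟨h1.mul k1, C * D, fun x => (abs_mul _ _).trans_le
    (mul_le_mul (h2 x) (k2 x) (abs_nonneg _) ((abs_nonneg _).trans (h2 x)))⟩
  add_mem' := fun ⟨h1, C, h2⟩ ⟨k1, D, k2⟩ => ⟨h1.add k1, C + D, fun x =>
    (abs_add_le _ _).trans (add_le_add (h2 x) (k2 x))⟩
  algebraMap_mem' := fun r => ⟨measurable_const, |r|, fun _ => le_rfl⟩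

lemma BM_mono {m' : MeasurableSpace α} (h : m ≤ m') : BM m ≤ BM m' :=
  fun _ hf => ⟨hf.1.mono h le_rfl, hf.2⟩

lemma BM_ind {A : Set α} (hA : MeasurableSet[m] A) : A.indicator (fun _ => (1 : ℝ)) ∈ BM m :=
  ⟨measurable_const.indicator hA, 1, fun x => by by_cases h : x ∈ A <;> simp [h]⟩

lemma BM_lp {f : α → ℝ} (hf : f ∈ BM m0) (p : ENNReal) : MemLp f p μ :=
  hf.2.elim fun C hC => .of_bound hf.1.aestronglyMeasurable C (.of_forall hC)

lemma BM_int {f : α → ℝ} (hf : f ∈ BM m0) : Integrable f μ := memLp_one_iff_integrable.1 (BM_lp hf 1)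

lemma proj (hm : m ≤ m0) {A : Set α} (hA : MeasurableSet[m0] A) : ∃ π ∈ BM m,
    (∀ x, |A.indicator (fun _ => (1 : ℝ)) x - π x| ≤ 1) ∧
    ∀ φ ∈ BM m, ∫ x, φ x * (A.indicator (fun _ => (1 : ℝ)) x - π x) ∂μ = 0 := by
  have h0 : ∀ t : ℝ, 0 ≤ max 0 (min t 1) ∧ max 0 (min t 1) ≤ 1 := fun t =>
    ⟨le_max_left _ _, max_le zero_le_one (min_le_right _ _)⟩
  have hb : (fun x => max 0 (min (μ[A.indicator fun _ => (1 : ℝ) | m] x) 1)) ∈ BM m :=
    ⟨measurable_const.max (stronglyMeasurable_condExp.measurable.min measurable_const), 1,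
      fun x => abs_le.2 ⟨(neg_one_lt_zero.le).trans (h0 _).1, (h0 _).2⟩⟩
  refine ⟨_, hb, fun x => ?_, fun φ hφ => ?_⟩
  · have := h0 (μ[A.indicator fun _ => (1 : ℝ) | m] x)
    by_cases h : x ∈ A <;> simp only [indicator, h, if_true, if_false, abs_le] <;>
      constructor <;> linarith [this.1, this.2]
  · have i1 := BM_int (μ := μ) ((BM m0).mul_mem (BM_mono hm hφ) (BM_ind hA))
    have i2 := BM_int (μ := μ) (BM_mono hm ((BM m).mul_mem hφ hb))
    have h1 := condExp_mul_of_stronglyMeasurable_left (m := m) hφ.1.stronglyMeasurable i1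
      (BM_int (BM_ind hA))
    have h2 := condExp_nonneg (m := m) (μ := μ) (f := A.indicator fun _ => (1 : ℝ))
      (.of_forall fun x => indicator_nonneg (fun _ _ => zero_le_one) x)
    have h3 := condExp_le_nonneg_const (m := m) (μ := μ) (f := A.indicator fun _ => (1 : ℝ))
      zero_le_one (.of_forall fun x => indicator_le_self' (fun _ _ => zero_le_one) x)
    simp only [mul_sub]
    refine (integral_sub i1 i2).trans (sub_eq_zero.2 ((integral_condExp hm).symm.trans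
      (integral_congr_ae ?_)))
    filter_upwards [h1, h2, h3] with x e1 e2 e3
    rw [e1, Pi.mul_apply, Pi.mul_apply, min_eq_left e3, max_eq_right (a := (0 : ℝ)) e2]

def Bes (μ : Measure α) (j : ℕ) (S : Set (α → ℝ)) : Prop :=
  ∀ (ι : Type) (s : Finset ι) (f : ι → α → ℝ) (a : ι → ℝ), InjOn f s → (∀ i ∈ s, f i ∈ S) →
    ∀ A, ∑ i ∈ s, a i ^ 2 < A → ∫ x, (∑ i ∈ s, a i • f i) x ^ (2 * j + 2) ∂μ ≤ μ.real univ * A ^ (j + 1)

lemma step (j : ℕ) : ∃ c : ℝ, 0 < c ∧ ∀ m : MeasurableSpace α, m ≤ m0 →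
    ∀ S : Set (α → ℝ), (∀ ⦃f⦄, f ∈ S → f ∈ BM m) → ∀ h ∈ BM m0,
    (∀ x, |h x| ≤ 1) → (∀ φ ∈ BM m, ∫ x, φ x * h x ∂μ = 0) → Bes μ j S →
      Bes μ j (S ∪ (fun f => c • (h * f)) '' S) := by
  classical
  obtain ⟨c, c0, hc⟩ := pt j
  refine ⟨c, c0, fun m hm S hS h hh h1 h2 hB ι s f a inj hf D hD => ?_⟩
  have : ∀ i, ∃ g, i ∈ s.filter (fun i => f i ∉ S) → g ∈ S ∧ c • (h * g) = f i := fun i => by
    by_cases hi : i ∈ s.filter (fun i => f i ∉ S)
    · exact ((hf i (Finset.mem_filter.1 hi).1).resolve_left (Finset.mem_filter.1 hi).2).imp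
        fun g hg _ => hg
    · exact ⟨0, fun h => (hi h).elim⟩
  choose g hg using this
  rw [← Finset.sum_filter_add_sum_filter_not s (f · ∈ S)] at hD ⊢
  obtain ⟨A, B, hA, hB', rfl⟩ : ∃ A B, ∑ i ∈ s.filter (f · ∈ S), a i ^ 2 < A ∧
      ∑ i ∈ s.filter (f · ∉ S), a i ^ 2 < B ∧ D = A + B :=
    ⟨_, _, left_lt_add_div_two.2 (lt_sub_iff_add_lt.2 hD), lt_sub_iff_add_lt'.2
      (lt_sub_iff_add_lt.1 (add_div_two_lt_right.2 (lt_sub_iff_add_lt.2 hD))),
      (add_sub_cancel _ _).symm⟩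
  have A0 := (Finset.sum_nonneg fun i _ => sq_nonneg (a i)).trans_lt hA
  have B0 := (Finset.sum_nonneg fun i _ => sq_nonneg (a i)).trans_lt hB'
  have e1 := hB ι _ f a (inj.mono (Finset.filter_subset _ _)) (fun i hi => (Finset.mem_filter.1 hi).2)
    A hA
  have e2 := hB ι _ g a (fun i hi k hk e => inj (Finset.filter_subset _ _ hi)
    (Finset.filter_subset _ _ hk) (by rw [← (hg i hi).2, e, (hg k hk).2])) (fun i hi => (hg i hi).1)
    B hB'
  have mx : ∑ i ∈ s.filter (f · ∈ S), a i • f i ∈ BM m :=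
    sum_mem fun i hi => (BM m).smul_mem (hS (Finset.mem_filter.1 hi).2) _
  have mg : ∑ i ∈ s.filter (f · ∉ S), a i • g i ∈ BM m :=
    sum_mem fun i hi => (BM m).smul_mem (hS (hg i hi).1) _
  rw [show ∑ i ∈ s.filter (f · ∉ S), a i • f i = c • (h * ∑ i ∈ s.filter (f · ∉ S), a i • g i) by
    rw [Finset.mul_sum, Finset.smul_sum]
    exact Finset.sum_congr rfl fun i hi => by rw [← (hg i hi).2, mul_smul_comm, smul_comm]]
  generalize ∑ i ∈ s.filter (f · ∈ S), a i • f i = x at e1 mx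
  generalize ∑ i ∈ s.filter (f · ∉ S), a i • g i = y at e2 mg
  have i1 : Integrable (fun t => x t ^ (2 * j + 2)) μ := BM_int (pow_mem (BM_mono hm mx) _)
  have i2 : Integrable (fun t => y t ^ (2 * j + 2)) μ := BM_int (pow_mem (BM_mono hm mg) _)
  have m3 := mul_mem (pow_mem mx (2 * j + 1)) mg
  have i3 : Integrable (fun t => x t ^ (2 * j + 1) * y t * h t) μ :=
    BM_int (mul_mem (BM_mono hm m3) hh)
  have i4 := i1.add (i3.const_mul ((2 * j + 2) * c))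
  have i5 := (i2.const_mul (B ^ (j + 1))⁻¹).add (i1.const_mul ((A + B) ^ (j + 1))⁻¹)
  refine (integral_mono (BM_int (pow_mem (add_mem (BM_mono hm mx) ((BM m0).smul_mem
    (mul_mem hh (BM_mono hm mg)) c)) _)) (i4.add (i5.const_mul (B * (A + B) ^ j / 2))) fun t =>
      (le_of_eq (by simp [mul_assoc])).trans (hc (x t) (y t) (h t) A B (h1 t) A0 B0)).trans ?_
  erw [integral_add i4 (i5.const_mul _), integral_add i1 (i3.const_mul _), integral_const_mul,
    integral_const_mul, integral_add (i2.const_mul _) (i1.const_mul _), integral_const_mul,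
    integral_const_mul, h2 _ m3]
  have k0 : 0 ≤ μ.real univ := measureReal_nonneg
  have k1 : (B ^ (j + 1))⁻¹ * ∫ t, y t ^ (2 * j + 2) ∂μ ≤ μ.real univ := by
    rwa [inv_mul_le_iff₀ (by positivity), mul_comm (B ^ _)]
  have k2 : ((A + B) ^ (j + 1))⁻¹ * ∫ t, x t ^ (2 * j + 2) ∂μ ≤ μ.real univ := by
    rw [inv_mul_le_iff₀ (by positivity), mul_comm ((A + B) ^ _)]
    exact e1.trans (mul_le_mul_of_nonneg_left (pow_le_pow_left₀ A0.le (by linarith) _) k0)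
  have k3 : A ^ (j + 1) + B * (A + B) ^ j ≤ (A + B) ^ (j + 1) := by
    rw [pow_succ, pow_succ]
    nlinarith [mul_le_mul_of_nonneg_right (pow_le_pow_left₀ A0.le
      (le_add_of_nonneg_right B0.le) j) A0.le]
  nlinarith [mul_le_mul_of_nonneg_left (add_le_add k1 k2)
    (show 0 ≤ B * (A + B) ^ j / 2 by positivity), mul_le_mul_of_nonneg_left k3 k0]

end Pool.Agent.H.MP_0eb56c_an
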