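import Pool.Agent.H.MP_0eb56c_an.A

set_option autoImplicit false

namespace Pool.Agent.H.MP_0eb56c_an

open Filter Topology Set MeasureTheory MeasurableSpace

variable {α : Type} {m0 : MeasurableSpace α} {μ : Measure α} [IsFiniteMeasure μ]
  {p : ENNReal} [Fact (1 ≤ p)]

noncomputable abbrev ind (μ : Measure α) [IsFiniteMeasure μ] (p : ENNReal) {C : Set α}
    (hC : MeasurableSet C) : Lp ℝ p μ := indicatorConstLp p hC (measure_ne_top μ C) (1 : ℝ)

lemma pil (hp : p ≠ ⊤) (V : Submodule ℝ (Lp ℝ p μ)) (hV : IsClosed (V : Set (Lp ℝ p μ)))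
    {P : Set (Set α)} (hP : IsPiSystem P) (hm : generateFrom P ≤ m0) (hu : univ ∈ P)
    (h : ∀ C ∈ P, ∀ hC : MeasurableSet C, ind μ p hC ∈ V) (F : Lp ℝ p μ)
    (hF : AEStronglyMeasurable[generateFrom P] F μ) : F ∈ V := by
  have k : ∀ C, MeasurableSet[generateFrom P] C → ∀ hC : MeasurableSet C, ind μ p hC ∈ V := by
    intro C hC
    induction C, hC using induction_on_inter (m := generateFrom P) rfl hP with
    | empty => intro _; simp
    | basic t ht => exact h t ht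
    | compl t ht ih =>
      intro hC
      have := indicatorConstLp_disjoint_union (p := p) (hm _ ht) hC (measure_ne_top μ _)
        (measure_ne_top μ _) disjoint_compl_right (1 : ℝ)
      simp only [union_compl_self] at this
      rw [ind, ← sub_eq_iff_eq_add'.2 this]
      exact V.sub_mem (h _ hu .univ) (ih _)
    | iUnion f hd hf ih =>
      intro hC
      have m1 : ∀ n, MeasurableSet (accumulate f n) := fun n =>
        .biUnion (to_countable _) fun i _ => hm _ (hf i)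
      refine hV.mem_of_tendsto (tendsto_indicatorConstLp_set (l := atTop) (ht := m1)
        (hμt := fun _ => measure_ne_top μ _) hp ?_) (.of_forall fun n => ?_)
      · have := ENNReal.Tendsto.sub (tendsto_const_nhds (x := μ (⋃ i, f i)))
          (tendsto_measure_iUnion_accumulate (μ := μ) (f := f)) (Or.inl (measure_ne_top _ _))
        rw [tsub_self] at this
        refine this.congr fun n => ?_
        rw [symmDiff_of_le (accumulate_subset_iUnion n), measure_sdiff (accumulate_subset_iUnion n)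
          (m1 n).nullMeasurableSet (measure_ne_top _ _)]
      · induction n with
        | zero =>
          simp only [accumulate_zero_nat]
          exact ih 0 (hm _ (hf 0))
        | succ n ihn =>
          have := indicatorConstLp_disjoint_union (p := p) (m1 n) (hm _ (hf (n + 1)))
            (measure_ne_top μ _) (measure_ne_top μ _) (disjoint_accumulate hd n.lt_succ_self) (1 : ℝ)
          simp only [accumulate_succ, this]
          exact V.add_mem ihn (ih _ _)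
  refine Lp.induction_stronglyMeasurable hm hp (· ∈ V) (fun c s hs _ => ?_)
    (fun _ _ _ _ _ _ _ => V.add_mem) (hV.preimage continuous_subtype_val) F hF
  convert V.smul_mem c (k s hs (hm s hs)) using 1
  rw [Lp.simpleFunc.coe_indicatorConst]
  ext1
  grw [Lp.coeFn_smul, indicatorConstLp_coeFn, indicatorConstLp_coeFn]
  exact .of_forall fun x => by by_cases hx : x ∈ s <;> simp [hx]

noncomputable def Cl (μ : Measure α) (p : ENNReal) [Fact (1 ≤ p)] (S : Set (α → ℝ)) :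
    Submodule ℝ (Lp ℝ p μ) :=
  (Submodule.span ℝ {F : Lp ℝ p μ | ∃ f ∈ S, F =ᵐ[μ] f}).topologicalClosure

omit [IsFiniteMeasure μ] in
lemma Cl_mono {S T : Set (α → ℝ)} (h : S ⊆ T) : Cl μ p S ≤ Cl μ p T :=
  Submodule.topologicalClosure_mono (Submodule.span_mono fun _ ⟨f, h1, h2⟩ => ⟨f, h h1, h2⟩)

def Good (μ : Measure α) [IsFiniteMeasure μ] (p : ENNReal) [Fact (1 ≤ p)] (j : ℕ)
    (z : Set (Set α) × Set (α → ℝ)) : Prop :=
  IsPiSystem z.1 ∧ (∀ C ∈ z.1, MeasurableSet C) ∧ univ ∈ z.1 ∧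
    (∀ ⦃f⦄, f ∈ z.2 → f ∈ BM (generateFrom z.1)) ∧ Bes μ j z.2 ∧
    ∀ C ∈ z.1, ∀ hC : MeasurableSet C, ind μ p hC ∈ Cl μ p z.2

lemma good0 (j : ℕ) : Good μ p j ({univ}, {1}) := by
  refine ⟨IsPiSystem.singleton _, by simp, rfl, by simp, fun ι s f a inj hf A hA => ?_,
    fun C hC hC' => Submodule.le_topologicalClosure _ (Submodule.subset_span ⟨1, rfl, ?_⟩)⟩
  · have A0 := (Finset.sum_nonneg fun i _ => sq_nonneg (a i)).trans_lt hA
    rcases s.eq_empty_or_nonempty with rfl | ⟨i, hi⟩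
    · simp
      positivity
    · obtain rfl : s = {i} := Finset.eq_singleton_iff_unique_mem.2
        ⟨hi, fun k hk => inj hk hi ((hf k hk).trans (hf i hi).symm)⟩
      rw [Finset.sum_singleton] at hA ⊢
      rw [show f i = 1 from hf i hi, show 2 * j + 2 = 2 * (j + 1) by ring]
      simp only [Pi.smul_apply, Pi.one_apply, smul_eq_mul, mul_one, integral_const, pow_mul]
      gcongr
  · obtain rfl : C = univ := hC
    exact indicatorConstLp_coeFn.trans (by simp; rfl)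

lemma chain (j : ℕ) (c : Set (Set (Set α) × Set (α → ℝ))) (hc : c ⊆ {z | Good μ p j z})
    (ch : IsChain (· ≤ ·) c) (y : Set (Set α) × Set (α → ℝ)) (hy : y ∈ c) :
    ∃ ub ∈ {z | Good μ p j z}, ∀ z ∈ c, z ≤ ub := by
  have l1 : ∀ z ∈ c, z.1 ⊆ ⋃ z ∈ c, z.1 := fun z hz => subset_biUnion_of_mem (u := Prod.fst) hz
  have l2 : ∀ z ∈ c, z.2 ⊆ ⋃ z ∈ c, z.2 := fun z hz => subset_biUnion_of_mem (u := Prod.snd) hz
  refine ⟨(⋃ z ∈ c, z.1, ⋃ z ∈ c, z.2), ⟨fun s hs t ht h => ?_, fun C hC => ?_,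
    l1 y hy (hc hy).2.2.1, fun f hf => ?_, fun ι s f a inj hf => ?_, fun C hC hC' => ?_⟩,
    fun z hz => ⟨l1 z hz, l2 z hz⟩⟩
  · obtain ⟨z, hz, hs⟩ := mem_iUnion₂.1 hs
    obtain ⟨w, hw, ht⟩ := mem_iUnion₂.1 ht
    obtain ⟨u, hu, h1, h2⟩ := ch.directedOn z hz w hw
    exact l1 u hu ((hc hu).1 s (h1.1 hs) t (h2.1 ht) h)
  · obtain ⟨z, hz, hC⟩ := mem_iUnion₂.1 hC
    exact (hc hz).2.1 C hC
  · obtain ⟨z, hz, hf⟩ := mem_iUnion₂.1 hf
    exact BM_mono (generateFrom_mono (l1 z hz)) ((hc hz).2.2.2.1 hf)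
  · have : ∃ z ∈ c, ∀ i ∈ s, f i ∈ z.2 := by
      classical
      clear inj
      induction s using Finset.induction_on with
      | empty => exact ⟨y, hy, by simp⟩
      | insert i s _ ih =>
        obtain ⟨z, hz, h1⟩ := ih fun k hk => hf k (Finset.mem_insert_of_mem hk)
        obtain ⟨w, hw, h2⟩ := mem_iUnion₂.1 (hf i (Finset.mem_insert_self _ _))
        obtain ⟨u, hu, h3, h4⟩ := ch.directedOn z hz w hw
        exact ⟨u, hu, Finset.forall_mem_insert _ _ _ |>.2 ⟨h4.2 h2, fun k hk => h3.2 (h1 k hk)⟩⟩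
    obtain ⟨z, hz, h⟩ := this
    exact (hc hz).2.2.2.2.1 ι s f a inj h
  · obtain ⟨z, hz, hC⟩ := mem_iUnion₂.1 hC
    exact Cl_mono (l2 z hz) ((hc hz).2.2.2.2.2 C hC hC')

lemma succ (hp : p ≠ ⊤) (j : ℕ) {z : Set (Set α) × Set (α → ℝ)} (hz : Good μ p j z) {A : Set α}
    (hA : MeasurableSet A) : ∃ w, Good μ p j w ∧ z ≤ w ∧ A ∈ w.1 := by
  obtain ⟨c, c0, hc⟩ := step (μ := μ) j
  obtain ⟨h1, h2, h3, h4, h5, h6⟩ := hz
  have hm : generateFrom z.1 ≤ m0 := generateFrom_le h2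
  obtain ⟨π, p1, p2, p3⟩ := proj (μ := μ) hm hA
  have hh := sub_mem (BM_ind hA) (BM_mono hm p1)
  have a1 : A ∈ z.1 ∪ (· ∩ A) '' z.1 := Or.inr ⟨_, h3, univ_inter A⟩
  have le := generateFrom_mono (subset_union_left (s := z.1) (t := (· ∩ A) '' z.1))
  refine ⟨(z.1 ∪ (· ∩ A) '' z.1, z.2 ∪ (fun f => c • ((A.indicator (fun _ => (1 : ℝ)) - π) * f)) '' z.2),
    ⟨?_, ?_, Or.inl h3, ?_, hc _ hm _ h4 _ hh p2 p3 h5, ?_⟩,
    ⟨subset_union_left, subset_union_left⟩, a1⟩
  · rintro _ (hs | ⟨s, hs, rfl⟩) _ (ht | ⟨t, ht, rfl⟩) h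
    · exact Or.inl (h1 _ hs _ ht h)
    · exact Or.inr ⟨_, h1 _ hs _ ht (h.mono (inter_subset_inter_right _ inter_subset_left)),
        inter_assoc _ _ _⟩
    · exact Or.inr ⟨_, h1 _ hs _ ht (h.mono (inter_subset_inter_left _ inter_subset_left)),
        inter_right_comm _ _ _⟩
    · exact Or.inr ⟨_, h1 _ hs _ ht (h.mono (inter_subset_inter inter_subset_left
        inter_subset_left)), inter_inter_distrib_right _ _ _⟩
  · rintro _ (hs | ⟨s, hs, rfl⟩)
    · exact h2 _ hs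
    · exact (h2 _ hs).inter hA
  · rintro _ (hf | ⟨f, hf, rfl⟩)
    · exact BM_mono le (h4 hf)
    · exact Subalgebra.smul_mem _ (mul_mem (sub_mem (BM_ind (measurableSet_generateFrom a1))
        (BM_mono le p1)) (BM_mono le (h4 hf))) c
  rintro _ (hs | ⟨C, hC, rfl⟩) hC'
  · exact Cl_mono subset_union_left (h6 _ hs hC')
  let M := ((ContinuousLinearMap.mul ℝ ℝ).holderL μ ⊤ p p) ((BM_lp hh ⊤).toLp _)
  have hM : ∀ F, M F =ᵐ[μ] (A.indicator (fun _ => (1 : ℝ)) - π) * F := fun F => by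
    filter_upwards [(ContinuousLinearMap.mul ℝ ℝ).coeFn_holder (r := p) ((BM_lp hh ⊤).toLp _) F,
      (BM_lp (μ := μ) hh ⊤).coeFn_toLp] with x e1 e2
    exact e1.trans (by rw [e2]; rfl)
  have k1 : Cl μ p z.2 ≤ (Cl μ p (z.2 ∪ (fun f => c • ((A.indicator (fun _ => (1 : ℝ)) - π) * f)) ''
      z.2)).comap M.toLinearMap := by
    refine Submodule.topologicalClosure_minimal _ (Submodule.span_le.2 ?_)
      ((Submodule.isClosed_topologicalClosure _).preimage M.continuous)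
    rintro F ⟨f, hf, e⟩
    change M F ∈ Cl μ p _
    refine (Submodule.smul_mem_iff _ c0.ne').1 (Submodule.le_topologicalClosure _
      (Submodule.subset_span ⟨_, Or.inr ⟨f, hf, rfl⟩, ?_⟩))
    filter_upwards [Lp.coeFn_smul c (M F), hM F, e] with x e1 e2 e3
    exact e1.trans (by rw [Pi.smul_apply, e2, Pi.mul_apply, e3]; rfl)
  have b := mul_mem p1 (BM_ind (measurableSet_generateFrom hC))
  have k2 := pil hp _ (Submodule.isClosed_topologicalClosure _) h1 hm h3 h6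
    ((BM_lp (BM_mono hm b) p).toLp _)
    (b.1.stronglyMeasurable.aestronglyMeasurable.congr (MemLp.coeFn_toLp _).symm)
  convert Submodule.add_mem _ (Submodule.mem_comap.1 (k1 (h6 C hC (h2 C hC))))
    (Cl_mono subset_union_left k2) using 1
  ext1
  grw [Lp.coeFn_add, indicatorConstLp_coeFn, MemLp.coeFn_toLp]
  filter_upwards [hM (ind μ p (h2 C hC)), indicatorConstLp_coeFn (p := p) (hs := h2 C hC)
    (hμs := measure_ne_top μ C) (c := (1 : ℝ))] with x e1 e2
  rw [Pi.add_apply, ContinuousLinearMap.coe_coe, e1, Pi.mul_apply, e2]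
  by_cases h : x ∈ C <;> by_cases h' : x ∈ A <;> simp [h, h']

lemma fin (hp : p ≠ ⊤) (j : ℕ) :
    ∃ S : Set (α → ℝ), (∀ f ∈ S, f ∈ BM m0) ∧ Bes μ j S ∧ ∀ F, F ∈ Cl μ p S := by
  obtain ⟨z, -, hz⟩ := zorn_le_nonempty₀ _ (chain (μ := μ) (p := p) j) _ (good0 j)
  obtain ⟨h1, h2, h3, h4, h5, h6⟩ := id hz.1
  have hm : generateFrom z.1 ≤ m0 := generateFrom_le h2
  refine ⟨z.2, fun f hf => BM_mono hm (h4 hf), h5, fun F => pil hp _
    (Submodule.isClosed_topologicalClosure _) h1 hm h3 h6 F ((Lp.aestronglyMeasurable F).mono ?_)⟩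
  intro A hA
  obtain ⟨w, k1, k2, k3⟩ := succ hp j hz.1 hA
  exact measurableSet_generateFrom ((hz.2 k1 k2).1 k3)

lemma nrm (j : ℕ) (hj : p ≤ (2 * j + 2 : ℕ)) : ∃ C, ∀ (F : Lp ℝ p μ) (x : α → ℝ), x ∈ BM m0 →
    F =ᵐ[μ] x → ∀ r, 0 ≤ r → ∫ t, x t ^ (2 * j + 2) ∂μ ≤ μ.real univ * (r ^ 2) ^ (j + 1) →
      ‖F‖ ≤ C * r := by
  refine ⟨(μ.real univ + 1) * (μ univ ^ (1 / p.toReal - 1 / ((2 * j + 2 : ℕ) : ENNReal).toReal)).toReal,
    fun F x hx e r r0 h => ?_⟩
  have p0 : p ≠ 0 := (zero_lt_one.trans_le Fact.out).ne'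
  have h1 := ENNReal.toReal_mono (ENNReal.mul_ne_top (BM_lp hx _).eLpNorm_ne_top
    (ENNReal.rpow_ne_top_of_nonneg (sub_nonneg.2 (one_div_le_one_div_of_le (ENNReal.toReal_pos p0
      (ne_top_of_le_ne_top (ENNReal.natCast_ne_top _) hj)) (ENNReal.toReal_mono
        (ENNReal.natCast_ne_top _) hj))) (measure_ne_top _ _)))
    (eLpNorm_le_eLpNorm_mul_rpow_measure_univ (μ := μ) hj hx.1.aestronglyMeasurable)
  rw [Lp.norm_def, eLpNorm_congr_ae e, mul_right_comm]
  rw [ENNReal.toReal_mul] at h1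
  refine h1.trans (mul_le_mul_of_nonneg_right ?_ ENNReal.toReal_nonneg)
  rw [(BM_lp hx _).eLpNorm_eq_integral_rpow_norm (by simp) (ENNReal.natCast_ne_top _),
    ENNReal.toReal_ofReal (by positivity), ENNReal.toReal_natCast,
    Real.rpow_inv_le_iff_of_pos (by positivity) (by positivity) (by positivity)]
  simp only [Real.rpow_natCast, Real.norm_eq_abs, Even.pow_abs (⟨j + 1, by ring⟩ : Even (2 * j + 2))]
  refine h.trans ?_
  rw [mul_pow, ← pow_mul, show 2 * (j + 1) = 2 * j + 2 by ring]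
  refine mul_le_mul_of_nonneg_right (le_trans (by linarith) (le_self_pow₀ ?_ (by omega)))
    (by positivity)
  exact le_add_of_nonneg_left measureReal_nonneg

theorem main (hp : p ≠ ⊤) : ∃ (H : Type) (_ : NormedAddCommGroup H) (_ : InnerProductSpace ℝ H)
    (_ : CompleteSpace H) (T : H →L[ℝ] Lp ℝ p μ), DenseRange (⇑T) := by
  classical
  obtain ⟨j, hj⟩ := ENNReal.exists_nat_gt hp
  obtain ⟨C, hC⟩ := nrm (μ := μ) (p := p) j (hj.le.trans (by norm_cast; omega))
  obtain ⟨S, h1, h2, h3⟩ := fin (μ := μ) hp j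
  let L := Finsupp.linearCombination ℝ fun f : S => (BM_lp (μ := μ) (h1 f f.2) p).toLp _
  let e := Finsupp.linearCombination ℝ fun f : S => (lp.single 2 f 1 : lp (fun _ : S => ℝ) 2)
  have e1 : ∀ (s : Finset S) (a : S → ℝ), ∑ i ∈ s, a i • (lp.single 2 i 1 : lp (fun _ : S => ℝ) 2) =
      ∑ i ∈ s, lp.single 2 i (a i) := fun s a => Finset.sum_congr rfl fun i _ => by
    rw [← lp.single_smul, smul_eq_mul, mul_one]
  have d : DenseRange e := fun x => mem_closure_of_tendsto (lp.hasSum_single (by simp) x)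
    (.of_forall fun s => ⟨∑ i ∈ s, x i • Finsupp.single i 1, by
      simp only [map_sum, map_smul, e, Finsupp.linearCombination_single, one_smul, e1]⟩)
  have b : ∀ a, ‖L a‖ ≤ C * 2 * ‖e a‖ := fun a => by
    rcases eq_or_ne a 0 with rfl | ha
    · simp
    have n := lp.norm_sum_single (E := fun _ : S => ℝ) (p := 2) (by simp) a a.support
    simp only [← e1, ENNReal.toReal_ofNat, Real.rpow_ofNat, Real.norm_eq_abs, sq_abs] at n
    have n0 : 0 < ∑ i ∈ a.support, a i ^ 2 := Finset.sum_pos (fun i hi =>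
      sq_pos_of_ne_zero (Finsupp.mem_support_iff.1 hi)) (Finsupp.support_nonempty_iff.2 ha)
    rw [mul_assoc]
    refine hC _ (∑ i ∈ a.support, a i • i.1) (sum_mem fun i _ => Subalgebra.smul_mem _ (h1 _ i.2) _)
      ?_ _ (by positivity) (h2 S _ _ a Subtype.val_injective.injOn (fun i _ => i.2) _ ?_)
    · refine (Lp.coeFn_finsetSum _ _).trans (eventuallyEq_sum fun i _ => ?_)
      exact (Lp.coeFn_smul _ _).trans ((MemLp.coeFn_toLp _).const_smul _)
    · rw [mul_pow]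
      change _ < 2 ^ 2 * ‖∑ i ∈ a.support, a i • (lp.single 2 i 1 : lp (fun _ : S => ℝ) 2)‖ ^ 2
      linarith
  refine ⟨lp (fun _ : S => ℝ) 2, inferInstance, inferInstance, inferInstance, L.extendOfNorm e,
    fun F => closure_mono ?_ (h3 F)⟩
  refine Submodule.span_le (p := (L.extendOfNorm e).range).2 fun G ⟨f, hf, hG⟩ =>
    ⟨e (Finsupp.single ⟨f, hf⟩ 1), (L.extendOfNorm_eq d ⟨_, b⟩ _).trans ?_⟩
  rw [Finsupp.linearCombination_single, one_smul]
  exact Lp.ext ((MemLp.coeFn_toLp _).trans hG.symm)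

end Pool.Agent.H.MP_0eb56c_an
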